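import Pool.Agent.H75.OM.TA
import Pool.Agent.H70.EH.RL2

/-!
# RLP: the second level of the Fourier spectrum of a conjunction, relative to its mean
-/

set_option autoImplicit false

namespace Pool.Agent.H41.OM

open Finset Pool.Agent.H6.NB Pool.Agent.H70.OQ Pool.Agent.H70.EH Pool.Agent.H70.EI Pool.Agent.H78.XQ
open Pool.Agent.H75.OM Pool.Agent.H3.NB.L12
open Pool.Agent.H68.AC (PA Wt fd Ext ind)

theorem rt_pos {w : ℕ} (hw : 1 ≤ w) (d : ℕ) : 0 < rt w d := by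
  have : (1 : ℝ) ≤ w := by exact_mod_cast hw
  unfold rt
  positivity

theorem rt_le {w : ℕ} (hw : 1 ≤ w) (d : ℕ) : rt w d ≤ 1 := by
  have : (1 : ℝ) ≤ w := by exact_mod_cast hw
  unfold rt
  apply pow_le_one₀ (by positivity)
  rw [div_le_one (by positivity)]
  linarith

theorem ir_rt {w₁ w₂ : ℕ} (h₁ : 1 ≤ w₁) (h₂ : 1 ≤ w₂) (d₁ d₂ : ℕ) :
    ir w₁ d₁ w₂ d₂ * (rt w₁ d₁ * rt w₂ d₂) = 1 := by
  have e1 : (1 : ℝ) ≤ w₁ := by exact_mod_cast h₁
  have e2 : (1 : ℝ) ≤ w₂ := by exact_mod_cast h₂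
  have e3 : (128 * (w₁ : ℝ)) ^ (d₁ + 1) * (1 / (128 * (w₁ : ℝ))) ^ (d₁ + 1) = 1 := by
    rw [← mul_pow, mul_one_div_cancel (by positivity), one_pow]
  have e4 : (128 * (w₂ : ℝ)) ^ (d₂ + 1) * (1 / (128 * (w₂ : ℝ))) ^ (d₂ + 1) = 1 := by
    rw [← mul_pow, mul_one_div_cancel (by positivity), one_pow]
  unfold ir rt
  calc _ = ((128 * (w₁ : ℝ)) ^ (d₁ + 1) * (1 / (128 * (w₁ : ℝ))) ^ (d₁ + 1)) *
        ((128 * (w₂ : ℝ)) ^ (d₂ + 1) * (1 / (128 * (w₂ : ℝ))) ^ (d₂ + 1)) := by ring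
    _ = 1 := by rw [e3, e4, one_mul]

theorem pf_RLP (h1 : Pool.Agent.H70.EH.T_RDT) (h2 : Pool.Agent.H6.NB.T_HTR) (h3 : T_SW2) :
    T_RLP := by
  intro V _ _ S₁ d₁ w₁ S₂ d₂ w₂ g h hw₁ hw₂ hg hh
  obtain ⟨Bad, hA, hB⟩ := h3 V S₁ d₁ w₁ S₂ d₂ w₂ g h hw₁ hw₂ hg hh
  set q : ℝ := rt w₁ d₁ * rt w₂ d₂ with hq
  have hq0 : 0 < q := mul_pos (rt_pos hw₁ d₁) (rt_pos hw₂ d₂)
  have hq1 : q ≤ 1 := mul_le_one₀ (rt_le hw₁ d₁) (rt_pos hw₂ d₂).le (rt_le hw₂ d₂)
  set F : (V → Bool) → ℝ := fun y => bi (g y && h y) with hF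
  set w : ℕ := w₁ + w₂ with hw
  have hwr : ((w₁ : ℝ) + w₂) = (w : ℝ) := by rw [hw]; push_cast; ring
  rw [hwr]
  -- the pointwise bound
  have hpt : ∀ R : Fin 1 → PA V, L12 (rst (fd R 1) F) ≤
      (w : ℝ) ^ 2 * mn (rst (fd R 1) F) + (Fintype.card V : ℝ) ^ 2 * ind (Bad R) := by
    intro R
    have hmn : 0 ≤ mn (rst (fd R 1) F) := RL2.mn_nonneg _ fun y => by
      unfold rst
      rw [hF]
      simp only [bi]
      split_ifs <;> simp
    by_cases hbad : Bad R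
    · have : ind (Bad R) = 1 := by
        unfold ind
        rw [if_pos hbad]
      rw [this, mul_one]
      have h4 := L12_le (rst (fd R 1) F) (rst_abs _ fun y => g y && h y)
      have h5 := mul_nonneg (sq_nonneg (w : ℝ)) hmn
      linarith
    · have : ind (Bad R) = 0 := by
        unfold ind
        rw [if_neg hbad]
      rw [this, mul_zero, add_zero]
      obtain ⟨t, ht0, ht1⟩ := hB R hbad
      obtain ⟨t', ht, ht'⟩ := tree_subst t (fd R 1)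
      have h4 := h1 V t' w (ht.trans ht0)
      have h5 : rst (fd R 1) F = fun y => bi (t'.eval y) := by
        funext y
        unfold rst
        rw [hF]
        simp only
        rw [ht' y, ← ht1]
        intro v b hv
        simp [hv]
      rw [h5]
      exact h4
  -- summation
  have hsum : q ^ (1 * 2) * L12 F ≤ ∑ R : Fin 1 → PA V,
      Wt q (1 / 2) R * L12 (rst (fd R 1) F) := by
    unfold L12
    rw [Finset.mul_sum]
    have e1 : ∑ R : Fin 1 → PA V, Wt q (1 / 2) R *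
        ∑ S ∈ powersetCard 2 (univ : Finset V), |hat (rst (fd R 1) F) S| =
        ∑ S ∈ powersetCard 2 (univ : Finset V), ∑ R : Fin 1 → PA V,
          Wt q (1 / 2) R * |hat (rst (fd R 1) F) S| := by
      rw [Finset.sum_comm]
      exact Finset.sum_congr rfl fun R _ => Finset.mul_sum _ _ _
    rw [e1]
    refine Finset.sum_le_sum fun S hS => ?_
    have h4 := h2 V 1 q F S hq0 hq1
    rw [(Finset.mem_powersetCard.1 hS).2] at h4
    exact h4
  have hsum2 : ∑ R : Fin 1 → PA V, Wt q (1 / 2) R * L12 (rst (fd R 1) F) ≤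
      (w : ℝ) ^ 2 * mn F + (Fintype.card V : ℝ) ^ 2 * (er S₁ d₁ w₁ + er S₂ d₂ w₂) := by
    calc ∑ R : Fin 1 → PA V, Wt q (1 / 2) R * L12 (rst (fd R 1) F) ≤
        ∑ R : Fin 1 → PA V, Wt q (1 / 2) R *
          ((w : ℝ) ^ 2 * mn (rst (fd R 1) F) + (Fintype.card V : ℝ) ^ 2 * ind (Bad R)) :=
          Finset.sum_le_sum fun R _ => mul_le_mul_of_nonneg_left (hpt R)
            (Pool.Agent.H90.AC.Wt_nonneg hq0.le hq1 (by norm_num) (by norm_num) R)
      _ = (∑ R : Fin 1 → PA V, Wt q (1 / 2) R * mn (rst (fd R 1) F)) * (w : ℝ) ^ 2 +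
          (Fintype.card V : ℝ) ^ 2 * ∑ R : Fin 1 → PA V, Wt q (1 / 2) R * ind (Bad R) := by
          rw [Finset.sum_mul, Finset.mul_sum, ← Finset.sum_add_distrib]
          refine Finset.sum_congr rfl fun R _ => ?_
          ring
      _ ≤ _ := by
          rw [RL2.sum_mn, mul_comm (mn F)]
          have := mul_le_mul_of_nonneg_left hA (sq_nonneg (Fintype.card V : ℝ))
          linarith
  have hone : ir w₁ d₁ w₂ d₂ ^ 2 * q ^ (1 * 2) = 1 := by
    rw [one_mul, ← mul_pow, ir_rt hw₁ hw₂, one_pow]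
  calc L12 F = ir w₁ d₁ w₂ d₂ ^ 2 * (q ^ (1 * 2) * L12 F) := by
        rw [← mul_assoc, hone, one_mul]
    _ ≤ _ := mul_le_mul_of_nonneg_left (hsum.trans hsum2) (sq_nonneg _)

end Pool.Agent.H41.OM
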